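import Pool.Agent.Helper74.RT.Main
import Pool.Agent.Helper96.PH.Defs

/-!
# The simulation: unambiguous programs
-/

set_option autoImplicit false
set_option linter.unusedSectionVars false

namespace Pool.Agent.Helper74.RT

open Finset Pool.Agent.Helper74.NW
open Pool.Agent.Helper99.NK (times)
open Pool.Agent.Helper96.PH (Unamb)

section typed

variable {C W Z Q : Type}

/-- Some computation from `q` has a result. -/
def Acc (act : Q → (C × (W → Set Q)) ⊕ Z) (I : C → W) (q : Q) : Prop :=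
  ∃ l t z, QRun act I q l t ∧ act t = Sum.inr z

theorem acc_of_cons {act : Q → (C × (W → Set Q)) ⊕ Z} {I : C → W} {q q' : Q} {c : C} {next : W → Set Q}
    (h : act q = .inl (c, next)) (h' : q' ∈ next (I c)) (h2 : Acc act I q') : Acc act I q := by
  obtain ⟨l, t, z, h3, h4⟩ := h2
  exact ⟨c :: l, t, z, QRun.cons _ _ _ _ _ _ h h' h3, h4⟩

theorem exists_next {act : Q → (C × (W → Set Q)) ⊕ Z} {I : C → W} {q : Q} {c : C} {next : W → Set Q}
    (h : act q = .inl (c, next)) (h2 : Acc act I q) : ∃ q' ∈ next (I c), Acc act I q' := by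
  obtain ⟨l, t, z, h3, h4⟩ := h2
  cases h3 with
  | nil =>
    rw [h] at h4
    simp at h4
  | cons _ s' _ c' next' l' h5 h6 h7 =>
    rw [h] at h5
    have h8 := Sum.inl_injective h5
    rw [Prod.mk.injEq] at h8
    obtain ⟨rfl, rfl⟩ := h8
    exact ⟨s', h6, l', t, z, h7, h4⟩

/-- Computations are unique if successors are unique. -/
theorem unique_of {act : Q → (C × (W → Set Q)) ⊕ Z} {I : C → W} (Cor : Q → Prop)
    (h1 : ∀ q q' c next, Cor q → act q = .inl (c, next) → q' ∈ next (I c) → Acc act I q' → Cor q')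
    (h2 : ∀ q q' q'' c next, Cor q → act q = .inl (c, next) → q' ∈ next (I c) → Acc act I q' → q'' ∈ next (I c) →
      Acc act I q'' → q' = q'')
    {q : Q} (hq : Cor q) {a a' : List C} {p p' : Q} (ha : QRun act I q a p) (ha' : QRun act I q a' p')
    (hp : Acc act I p) (hp' : Acc act I p') (hl : a.length = a'.length) : a = a' ∧ p = p' := by
  induction ha generalizing a' p' with
  | nil s =>
    cases ha' with
    | nil => exact ⟨rfl, rfl⟩
    | cons => simp at hl
  | cons s s' t c next l h3 h4 h5 ih =>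
    cases ha' with
    | nil => simp at hl
    | cons _ s'' _ c' next' l' h6 h7 h8 =>
      rw [h3] at h6
      have h9 := Sum.inl_injective h6
      rw [Prod.mk.injEq] at h9
      obtain ⟨rfl, rfl⟩ := h9
      have hs' : Acc act I s' := by
        obtain ⟨l2, t2, z2, h10, h11⟩ := hp
        exact ⟨l ++ l2, t2, z2, h5.append h10, h11⟩
      have hs'' : Acc act I s'' := by
        obtain ⟨l2, t2, z2, h10, h11⟩ := hp'
        exact ⟨l' ++ l2, t2, z2, h8.append h10, h11⟩
      have h12 := h2 s s' s'' c next hq h3 h4 hs' h7 hs''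
      subst h12
      obtain ⟨h13, h14⟩ := ih (h1 s s' c next hq h3 h4 hs') h8 hp hp' (by simpa using hl)
      exact ⟨by rw [h13], h14⟩

theorem toProg_unamb [Fintype Q] (start : Q) (act : Q → (C × (W → Set Q)) ⊕ Z)
    (h : ∀ (I : C → W) (a a' : List C) (p p' : Q), QRun act I start a p → QRun act I start a' p' → Acc act I p →
      Acc act I p' → a.length = a'.length → a = a' ∧ p = p') : Unamb (toProg start act) := by
  have hacc : ∀ {I : C → W} {q t : Fin (Fintype.card Q)} {b : List C} {z : Z}, (toProg start act).Run I q b t →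
      (toProg start act).act t = Sum.inr z → Acc act I ((Fintype.equivFin Q).symm q) := by
    intro I q t b z h1 h2
    refine ⟨b, _, z, qrun_of_run h1, ?_⟩
    have h5 : (act ((Fintype.equivFin Q).symm t)).map
        (fun p => (p.1, fun w => {t | (Fintype.equivFin Q).symm t ∈ p.2 w})) id = Sum.inr z := h2
    cases h6 : act ((Fintype.equivFin Q).symm t) with
    | inl p =>
      rw [h6] at h5
      simp at h5
    | inr z' =>
      rw [h6, Sum.map_inr] at h5
      exact congrArg Sum.inr (Sum.inr_injective h5)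
  intro I a a' b b' q q' t t' z z' h1 h2 h3 h4 h5 h6 h7
  have h8 := qrun_of_run h1
  have h9 := qrun_of_run h4
  have h10 : (toProg start act).start = Fintype.equivFin Q start := rfl
  rw [h10, Equiv.symm_apply_apply] at h8 h9
  obtain ⟨h11, h12⟩ := h I a a' _ _ h8 h9 (hacc h2 h3) (hacc h5 h6) h7
  exact ⟨h11, (Fintype.equivFin Q).symm.injective h12⟩

end typed

section sim

variable {C W Z : Type} {N S : ℕ} {P : NProg C W Z S} {e : C ≃ Fin N} {c0 : C} {v : W} [Fintype C]

theorem goS_unique {w : Fin (N + 1)} {s : Fin S} {q q' : St N S W} (h : q ∈ goS P w s) (h' : q' ∈ goS P w s) :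
    q = q' := by
  rcases h with ⟨⟨z, h1⟩, rfl⟩ | ⟨⟨z, h1⟩, rfl⟩ <;> rcases h' with ⟨⟨z', h2⟩, rfl⟩ | ⟨⟨z', h2⟩, rfl⟩
  · rfl
  · rw [h1] at h2
    simp at h2
  · rw [h1] at h2
    simp at h2
  · rfl

theorem one_add (I : C → W) {y y' : ℕ} (h : y ≤ y') (h' : y' ≤ N) : one e v I y' ≤ one e v I y + (y' - y) := by
  induction y', h using Nat.le_induction with
  | base => omega
  | succ z hz ih =>
    have h1 := ih (by omega)
    rw [one_succ e v I (by omega : z < N)]
    split_ifs <;> omega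

/-- In the second part: the number of the skipped cells is at least the number of the cells with the value `v`. -/
theorem acc_ask {I : C → W} {l : List C} {q t : St N S W} {z : Z} (h : QRun (act P e c0 v) I q l t)
    (ht : act P e c0 v t = .inr z) :
    ∀ {w : Fin (N + 1)} {s : Fin S} {k : Fin (N + 1)} {r : W} {y : Fin N}, q = .ask w s k r y →
      one e v I y ≤ k → I (e.symm y) ≠ v ∧ one e v I N + k ≤ w + one e v I y := by
  classical
  induction h with
  | nil q =>
    rintro w s k r y rfl -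
    simp [act] at ht
  | cons q q' t c next l h1 h2 h3 ih =>
    rintro w s k r y rfl hk
    have h4 := Sum.inl_injective h1
    rw [Prod.mk.injEq] at h4
    obtain ⟨rfl, rfl⟩ := h4
    obtain ⟨h5, h6⟩ := h2
    have h7 := one_succ e v I y.2
    rw [if_neg h5, add_zero] at h7
    refine ⟨h5, ?_⟩
    rcases h6 with ⟨k', y', h8, h9, h10⟩ | ⟨h8, -⟩
    · have h11 := one_add (e := e) (v := v) I h8 y'.2.le
      obtain ⟨-, h12⟩ := ih ht h10 (by omega)
      omega
    · have h11 := one_add (e := e) (v := v) I (by have := y.2; omega : (y : ℕ) + 1 ≤ N) le_rfl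
      omega

theorem acc_goA {I : C → W} {w : Fin (N + 1)} {s : Fin S} {k : ℕ} {r : W} {y : ℕ} {q : St N S W}
    (hq : q ∈ goA P w s k r y) (hy : y ≤ N) (hk : one e v I y ≤ k) (h : Acc (act P e c0 v) I q) :
    one e v I N + k ≤ w + one e v I y := by
  rcases hq with ⟨k', y', h8, h9, rfl⟩ | ⟨h8, -⟩
  · obtain ⟨l, t, z, h1, h2⟩ := h
    have h11 := one_add (e := e) (v := v) I h8 y'.2.le
    obtain ⟨-, h12⟩ := acc_ask h1 h2 rfl (by omega)
    omega
  · have h11 := one_add (e := e) (v := v) I hy le_rfl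
    omega

theorem act_scan (w : Fin (N + 1)) (s : Fin S) : open Classical in act P e c0 v (.scan w s) =
    .inl (c0, fun a => goA P w s (if a = v then 1 else 0) (upd P s c0 a v) 1) := rfl

theorem acc_scan (h0 : (e c0 : ℕ) = 0) {I : C → W} {w : Fin (N + 1)} {s : Fin S}
    (h : Acc (act P e c0 v) I (.scan w s)) : one e v I N ≤ w := by
  classical
  have hN : 0 < N := by
    have := (e c0).2
    omega
  obtain ⟨q', h1, h2⟩ := exists_next (act_scan w s) h
  have h3 := Inv.first (P := P) (e := e) (v := v) (I := I) (s := s) h0 hN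
  have h5 := one_succ e v I hN
  have h6 : e.symm ⟨0, hN⟩ = c0 := by
    rw [Equiv.symm_apply_eq]
    exact Fin.ext h0.symm
  rw [one_zero, zero_add, zero_add, h6] at h5
  have h4 := acc_goA h1 hN h3.1 h2
  rw [← h5] at h4
  omega

/-- In the first part. -/
theorem acc_ver (h0 : (e c0 : ℕ) = 0) (hP : ∀ z, P.act P.start ≠ .inr z) {I : C → W} {l : List C}
    {q t : St N S W} {z : Z} (h : QRun (act P e c0 v) I q l t) (ht : act P e c0 v t = .inr z) :
    ∀ {w c : Fin (N + 1)} {y : Fin N}, q = .ver w c y → (c : ℕ) ≤ one e v I y →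
      I (e.symm y) = v ∧ (w : ℕ) = one e v I N ∧ (c : ℕ) = one e v I y := by
  classical
  induction h with
  | nil q =>
    rintro w c y rfl -
    simp [act] at ht
  | cons q q' t c next l h1 h2 h3 ih =>
    rintro w c' y rfl hc
    have h4 := Sum.inl_injective h1
    rw [Prod.mk.injEq] at h4
    obtain ⟨rfl, rfl⟩ := h4
    obtain ⟨h5, h6⟩ := h2
    have h7 := one_succ e v I y.2
    rw [if_pos h5] at h7
    refine ⟨h5, ?_⟩
    rcases h6 with ⟨c'', y', h8, h9, h10⟩ | ⟨h8, h9⟩
    · have h11 := one_mono e v I h9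
      obtain ⟨-, h12, h13⟩ := ih ht h10 (by omega)
      exact ⟨h12, by omega⟩
    · rcases h9 with ⟨⟨z', h10⟩, -⟩ | ⟨-, rfl⟩
      · exact absurd h10 (hP z')
      · have h11 := acc_scan h0 ⟨l, t, z, h3, ht⟩
        have h12 := one_mono e v I (by have := y.2; omega : (y : ℕ) + 1 ≤ N)
        exact ⟨by omega, by omega⟩

theorem acc_goV (h0 : (e c0 : ℕ) = 0) (hP : ∀ z, P.act P.start ≠ .inr z) {I : C → W} {w : Fin (N + 1)} {c y : ℕ}
    {q : St N S W} (hq : q ∈ goV P w c y) (hy : y ≤ N) (hc : c ≤ one e v I y) (h : Acc (act P e c0 v) I q) :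
    (w : ℕ) = one e v I N ∧ c = one e v I y := by
  rcases hq with ⟨c', y', h8, h9, rfl⟩ | ⟨h8, h9⟩
  · obtain ⟨l, t, z, h1, h2⟩ := h
    have h11 := one_mono e v I h9
    obtain ⟨-, h12, h13⟩ := acc_ver h0 hP h1 h2 rfl (by omega)
    exact ⟨h12, by omega⟩
  · rcases h9 with ⟨⟨z', h10⟩, -⟩ | ⟨-, rfl⟩
    · exact absurd h10 (hP z')
    · have h11 := acc_scan h0 h
      have h12 := one_mono e v I hy
      exact ⟨by omega, by omega⟩

theorem goV_unique (h0 : (e c0 : ℕ) = 0) (hP : ∀ z, P.act P.start ≠ .inr z) {I : C → W} {w : Fin (N + 1)} {y : ℕ}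
    {q q' : St N S W} (hq : q ∈ goV P w (one e v I y) y) (hq' : q' ∈ goV P w (one e v I y) y)
    (h : Acc (act P e c0 v) I q) (h' : Acc (act P e c0 v) I q') : q = q' := by
  have key : ∀ {w c : Fin (N + 1)} {y' : Fin N}, (c : ℕ) = one e v I y → y ≤ y' →
      Acc (act P e c0 v) I (.ver w c y') → I (e.symm y') = v ∧ (w : ℕ) = one e v I N ∧ one e v I y = one e v I y' := by
    intro w c y' h1 h2 h3
    obtain ⟨l, t, z, h4, h5⟩ := h3
    obtain ⟨h6, h7, h8⟩ := acc_ver h0 hP h4 h5 rfl (by rw [h1]; exact one_mono e v I h2)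
    exact ⟨h6, h7, by omega⟩
  have key2 : ∀ {y' : Fin N}, I (e.symm y') = v → one e v I (y' + 1) = one e v I y' + 1 := by
    intro y' h1
    rw [one_succ e v I y'.2, if_pos h1]
  rcases hq with ⟨c', y', h1, h2, rfl⟩ | ⟨h1, h2⟩ <;> rcases hq' with ⟨c'', y'', h3, h4, rfl⟩ | ⟨h3, h4⟩
  · obtain ⟨h5, h6, h7⟩ := key h1 h2 h
    obtain ⟨h8, h9, h10⟩ := key h3 h4 h'
    have h11 : c' = c'' := Fin.ext (by omega)
    have h12 : y' = y'' := by
      rcases lt_trichotomy (y' : ℕ) y'' with h13 | h13 | h13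
      · have h14 := one_mono e v I (by omega : (y' : ℕ) + 1 ≤ y'')
        rw [key2 h5] at h14
        omega
      · exact Fin.ext h13
      · have h14 := one_mono e v I (by omega : (y'' : ℕ) + 1 ≤ y')
        rw [key2 h8] at h14
        omega
    rw [h11, h12]
  · obtain ⟨h5, h6, h7⟩ := key h1 h2 h
    have h14 := one_mono e v I (by have := y'.2; omega : (y' : ℕ) + 1 ≤ N)
    rw [key2 h5] at h14
    omega
  · obtain ⟨h5, h6, h7⟩ := key h3 h4 h'
    have h14 := one_mono e v I (by have := y''.2; omega : (y'' : ℕ) + 1 ≤ N)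
    rw [key2 h5] at h14
    omega
  · exact goS_unique h2 h4

/-- In the second part: the next cell is the first one which has not the value `v`. -/
theorem ask_eq {I : C → W} {w : Fin (N + 1)} {s : Fin S} {k' : Fin (N + 1)} {r : W} {y : ℕ} {y' : Fin N}
    (hw : (w : ℕ) = one e v I N) (h1 : y ≤ y') (h2 : (k' : ℕ) = one e v I y + (y' - y))
    (h : Acc (act P e c0 v) I (.ask w s k' r y')) : I (e.symm y') ≠ v ∧ (k' : ℕ) = one e v I y' := by
  obtain ⟨l, t, z, h3, h4⟩ := h
  have h5 := one_add (e := e) (v := v) I h1 y'.2.le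
  obtain ⟨h6, h7⟩ := acc_ask h3 h4 rfl (by omega)
  exact ⟨h6, by omega⟩

theorem acc_goS (h0 : (e c0 : ℕ) = 0) {I : C → W} {w : Fin (N + 1)} {s : Fin S} {q : St N S W} (hq : q ∈ goS P w s)
    (hw : (w : ℕ) = one e v I N) (h : Acc (act P e c0 v) I q) : ∃ l t z, P.Run I s l t ∧ P.act t = .inr z := by
  obtain ⟨l, t, z, h3, h4⟩ := h
  obtain ⟨l', t', h5, h6⟩ := okS hq hw.le (sound h0 h3 h4)
  exact ⟨l', t', z, h5, h6⟩

theorem run_snoc {I : C → W} {s0 s s' : Fin S} {a : List C} {x : C} {nx : W → Set (Fin S)} (h : P.Run I s0 a s)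
    (h1 : P.act s = .inl (x, nx)) (h2 : s' ∈ nx (I x)) : P.Run I s0 (a ++ [x]) s' := by
  induction h with
  | nil s => exact NProg.Run.cons s s' s' x nx [] h1 h2 (NProg.Run.nil s')
  | cons s u t c next l h3 h4 _ ih => exact NProg.Run.cons s u s' c next _ h3 h4 (ih h1)

theorem goA_unique (h0 : (e c0 : ℕ) = 0) (hU : Unamb P) {I : C → W} {w : Fin (N + 1)}
    {s : Fin S} {k : ℕ} {r : W} {y : ℕ} {a0 : List C} (ha : P.Run I P.start a0 s) (hw : (w : ℕ) = one e v I N)
    (hk : one e v I y = k) (hi : Inv P e v I s k r y) (hy : y ≤ N) {q q' : St N S W} (hq : q ∈ goA P w s k r y)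
    (hq' : q' ∈ goA P w s k r y) (h : Acc (act P e c0 v) I q) (h' : Acc (act P e c0 v) I q') : q = q' := by
  subst hk
  have key : ∀ {y' : Fin N}, I (e.symm y') ≠ v → one e v I (y' + 1) = one e v I y' := by
    intro y' h1
    rw [one_succ e v I y'.2, if_neg h1, add_zero]
  rcases hq with ⟨k', y', h1, h2, rfl⟩ | ⟨h1, x, nx, h2, s', h3, h4⟩ <;>
    rcases hq' with ⟨k'', y'', h5, h6, rfl⟩ | ⟨h5, x', nx', h6, s'', h7, h8⟩
  · obtain ⟨h7, h8⟩ := ask_eq hw h1 h2 h
    obtain ⟨h9, h10⟩ := ask_eq hw h5 h6 h'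
    have h12 : y' = y'' := by
      rcases lt_trichotomy (y' : ℕ) y'' with h13 | h13 | h13
      · have h14 := one_add (e := e) (v := v) I (by omega : (y' : ℕ) + 1 ≤ y'') y''.2.le
        rw [key h7] at h14
        omega
      · exact Fin.ext h13
      · have h14 := one_add (e := e) (v := v) I (by omega : (y'' : ℕ) + 1 ≤ y') y'.2.le
        rw [key h9] at h14
        omega
    subst h12
    have h11 : k' = k'' := Fin.ext (by omega)
    rw [h11]
  · obtain ⟨h9, h10⟩ := ask_eq hw h1 h2 h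
    have h14 := one_add (e := e) (v := v) I (by have := y'.2; omega : (y' : ℕ) + 1 ≤ N) le_rfl
    rw [key h9] at h14
    have := y'.2
    omega
  · obtain ⟨h9, h10⟩ := ask_eq hw h5 h6 h'
    have h14 := one_add (e := e) (v := v) I (by have := y''.2; omega : (y'' : ℕ) + 1 ≤ N) le_rfl
    rw [key h9] at h14
    have := y''.2
    omega
  · rw [h2] at h6
    obtain ⟨rfl, rfl⟩ := Prod.mk.inj (Sum.inl_injective h6)
    rw [hi.done hy hw.le h1 h2] at h3 h7
    obtain ⟨l1, t1, z1, h9, h10⟩ := acc_goS h0 h4 hw h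
    obtain ⟨l2, t2, z2, h11, h12⟩ := acc_goS h0 h8 hw h'
    obtain ⟨-, h13⟩ := hU I _ _ _ _ _ _ _ _ _ _ (run_snoc ha h2 h3) h9 h10 (run_snoc ha h2 h7) h11 h12 rfl
    subst h13
    exact goS_unique h4 h8

/-- The states which occur in computations with results. -/
def Cor (P : NProg C W Z S) (e : C ≃ Fin N) (v : W) (I : C → W) : St N S W → Prop
  | .init => True
  | .ver w c y => (w : ℕ) = one e v I N ∧ (c : ℕ) = one e v I y
  | .scan w s => (w : ℕ) = one e v I N ∧ ∃ a, P.Run I P.start a s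
  | .ask w s k r y => (w : ℕ) = one e v I N ∧ one e v I y = k ∧ Inv P e v I s k r y ∧ ∃ a, P.Run I P.start a s
  | .fin _ => True

theorem corV (h0 : (e c0 : ℕ) = 0) (hP : ∀ z, P.act P.start ≠ .inr z) {I : C → W} {w : Fin (N + 1)} {y : ℕ}
    {q : St N S W} (hq : q ∈ goV P w (one e v I y) y) (hy : y ≤ N) (h : Acc (act P e c0 v) I q) :
    Cor P e v I q := by
  obtain ⟨hw, -⟩ := acc_goV h0 hP hq hy le_rfl h
  rcases hq with ⟨c', y', h1, h2, rfl⟩ | ⟨h1, h2⟩
  · refine ⟨hw, ?_⟩
    obtain ⟨l, t, z, h4, h5⟩ := h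
    exact (acc_ver h0 hP h4 h5 rfl (by rw [h1]; exact one_mono e v I h2)).2.2
  · rcases h2 with ⟨-, rfl⟩ | ⟨-, rfl⟩
    · trivial
    · exact ⟨hw, [], NProg.Run.nil _⟩

theorem corA {I : C → W} {w : Fin (N + 1)} {s : Fin S} {k : ℕ} {r : W} {y : ℕ} {a0 : List C}
    (ha : P.Run I P.start a0 s) (hw : (w : ℕ) = one e v I N) (hk : one e v I y = k) (hi : Inv P e v I s k r y)
    (hy : y ≤ N) {q : St N S W} (hq : q ∈ goA P w s k r y) (h : Acc (act P e c0 v) I q) : Cor P e v I q := by
  subst hk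
  rcases hq with ⟨k', y', h1, h2, rfl⟩ | ⟨h1, x, nx, h2, s', h3, h4⟩
  · obtain ⟨h7, h8⟩ := ask_eq hw h1 h2 h
    refine ⟨hw, h8.symm, ?_, a0, ha⟩
    rw [h2]
    exact hi.skip h1 y'.2.le
  · rw [hi.done hy hw.le h1 h2] at h3
    rcases h4 with ⟨-, rfl⟩ | ⟨-, rfl⟩
    · trivial
    · exact ⟨hw, _, run_snoc ha h2 h3⟩

theorem unamb (h0 : (e c0 : ℕ) = 0) (hP : ∀ z, P.act P.start ≠ .inr z) (hU : Unamb P) [Fintype W] :
    Unamb (toProg .init (act P e c0 v)) := by
  classical
  have hN : 0 < N := by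
    have := (e c0).2
    omega
  have hsym : e.symm ⟨0, hN⟩ = c0 := by
    rw [Equiv.symm_apply_eq]
    exact Fin.ext h0.symm
  refine toProg_unamb _ _ fun I a a' p p' h1 h2 h3 h4 h5 => unique_of (Cor P e v I) ?_ ?_
    (show Cor P e v I .init from trivial) h1 h2 h3 h4 h5
  · intro q q' c next hc hq hq' hacc
    have hone := one_succ e v I hN
    rw [one_zero, zero_add, zero_add, hsym] at hone
    cases q with
    | init =>
      obtain ⟨rfl, rfl⟩ := Prod.mk.inj (Sum.inl_injective hq)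
      obtain ⟨w, h6⟩ := hq'
      rw [← hone] at h6
      exact corV h0 hP h6 hN hacc
    | ver w c' y =>
      obtain ⟨rfl, rfl⟩ := Prod.mk.inj (Sum.inl_injective hq)
      obtain ⟨h6, h7⟩ := hq'
      have h8 := one_succ e v I y.2
      rw [if_pos h6] at h8
      rw [hc.2, ← h8] at h7
      exact corV h0 hP h7 y.2 hacc
    | scan w s =>
      obtain ⟨rfl, rfl⟩ := Prod.mk.inj (Sum.inl_injective hq)
      obtain ⟨hw, a0, ha⟩ := hc
      exact corA ha hw hone (Inv.first h0 hN) hN hq' hacc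
    | ask w s k r y =>
      obtain ⟨rfl, rfl⟩ := Prod.mk.inj (Sum.inl_injective hq)
      obtain ⟨hw, hk, hi, a0, ha⟩ := hc
      obtain ⟨h6, h7⟩ := hq'
      have h8 := one_succ e v I y.2
      rw [if_neg h6, add_zero] at h8
      exact corA ha hw (h8.trans hk) (hi.ask h6) y.2 h7 hacc
    | fin s =>
      exfalso
      have h3 : (P.act s).map (fun _ => (c0, fun _ => ∅)) id = (.inl (c, next) : (C × (W → Set (St N S W))) ⊕ Z) := hq
      cases h4 : P.act s with
      | inl p =>
        rw [h4, Sum.map_inl] at h3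
        have h5 := (Prod.mk.inj (Sum.inl_injective h3)).2
        rw [← h5] at hq'
        exact hq'
      | inr z' =>
        rw [h4, Sum.map_inr] at h3
        simp at h3
  · intro q q' q'' c next hc hq hq' hacc hq'' hacc'
    have hone := one_succ e v I hN
    rw [one_zero, zero_add, zero_add, hsym] at hone
    cases q with
    | init =>
      obtain ⟨rfl, rfl⟩ := Prod.mk.inj (Sum.inl_injective hq)
      obtain ⟨w, h6⟩ := hq'
      obtain ⟨w', h7⟩ := hq''
      rw [← hone] at h6 h7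
      have h8 := (acc_goV h0 hP h6 hN le_rfl hacc).1
      have h9 := (acc_goV h0 hP h7 hN le_rfl hacc').1
      have h10 : w = w' := Fin.ext (by omega)
      subst h10
      exact goV_unique h0 hP h6 h7 hacc hacc'
    | ver w c' y =>
      obtain ⟨rfl, rfl⟩ := Prod.mk.inj (Sum.inl_injective hq)
      obtain ⟨h6, h7⟩ := hq'
      obtain ⟨-, h9⟩ := hq''
      have h8 := one_succ e v I y.2
      rw [if_pos h6] at h8
      rw [hc.2, ← h8] at h7 h9
      exact goV_unique h0 hP h7 h9 hacc hacc'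
    | scan w s =>
      obtain ⟨rfl, rfl⟩ := Prod.mk.inj (Sum.inl_injective hq)
      obtain ⟨hw, a0, ha⟩ := hc
      exact goA_unique h0 hU ha hw hone (Inv.first h0 hN) hN hq' hq'' hacc hacc'
    | ask w s k r y =>
      obtain ⟨rfl, rfl⟩ := Prod.mk.inj (Sum.inl_injective hq)
      obtain ⟨hw, hk, hi, a0, ha⟩ := hc
      obtain ⟨h6, h7⟩ := hq'
      obtain ⟨-, h9⟩ := hq''
      have h8 := one_succ e v I y.2
      rw [if_neg h6, add_zero] at h8
      exact goA_unique h0 hU ha hw (h8.trans hk) (hi.ask h6) y.2 h7 h9 hacc hacc'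
    | fin s =>
      exfalso
      have h3 : (P.act s).map (fun _ => (c0, fun _ => ∅)) id = (.inl (c, next) : (C × (W → Set (St N S W))) ⊕ Z) := hq
      cases h4 : P.act s with
      | inl p =>
        rw [h4, Sum.map_inl] at h3
        have h5 := (Prod.mk.inj (Sum.inl_injective h3)).2
        rw [← h5] at hq'
        exact hq'
      | inr z' =>
        rw [h4, Sum.map_inr] at h3
        simp at h3

end sim

section main

variable {C W Z : Type} [Fintype C] [Fintype W]

/-- Every nondeterministic program with `S` states is equivalent to one with at most `(N + 1) ^ 3 * (q * S + 1)` states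
(`N` cells, `q` values) all of whose computations with results query the cells with the value `v` (with the exception of
one cell `c0`) at most once, and which is unambiguous if the given program is unambiguous. -/
theorem once_unamb {S : ℕ} (P : NProg C W Z S) (v : W) (c0 : C) :
    ∃ (S' : ℕ) (P' : NProg C W Z S'), S' ≤ (Fintype.card C + 1) ^ 3 * (Fintype.card W * S + 1) ∧
      (∀ I z, (∃ l, P'.Ends I l z) ↔ ∃ l, P.Ends I l z) ∧ (Unamb P → Unamb P') ∧
      ∀ I l z, P'.Ends I l z → ∀ x, x ≠ c0 → I x = v → times l x ≤ 1 := by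
  classical
  have hN : 0 < Fintype.card C := Fintype.card_pos_iff.2 ⟨c0⟩
  have hW : 0 < Fintype.card W := Fintype.card_pos_iff.2 ⟨v⟩
  by_cases hP : ∀ z, P.act P.start ≠ .inr z
  · obtain ⟨e, he⟩ : ∃ e : C ≃ Fin (Fintype.card C), (e c0 : ℕ) = 0 := by
      refine ⟨(Fintype.equivFin C).trans (Equiv.swap (Fintype.equivFin C c0) ⟨0, hN⟩), ?_⟩
      rw [Equiv.trans_apply, Equiv.swap_apply_left]
    refine ⟨_, toProg .init (act P e c0 v), card_St _ _ _ hN hW, fun I z => ⟨?_, ?_⟩, fun hU => unamb he hP hU, ?_⟩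
    · rintro ⟨l, h⟩
      obtain ⟨t, h1, h2⟩ := (toProg_ends _ _ _ _ _).1 h
      exact sound he h1 h2
    · rintro ⟨l, h⟩
      obtain ⟨l', t, h1, h2⟩ := complete (v := v) he I h
      exact ⟨l', (toProg_ends _ _ _ _ _).2 ⟨t, h1, h2⟩⟩
    · intro I l z h x hx hv
      obtain ⟨t, h1, h2⟩ := (toProg_ends _ _ _ _ _).1 h
      exact few h1 h2 hx hv
  · push Not at hP
    obtain ⟨z0, hz⟩ := hP
    refine ⟨S, P, ?_, fun I z => Iff.rfl, id, ?_⟩
    · calc S ≤ 1 * (1 * S + 1) := by omega
        _ ≤ _ := Nat.mul_le_mul (Nat.one_le_pow _ _ (Nat.succ_pos _))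
            (Nat.add_le_add_right (Nat.mul_le_mul_right _ hW) _)
    · rintro I l z ⟨t, h1, -⟩ x - -
      cases h1 with
      | nil => rw [times_nil]; exact Nat.zero_le 1
      | cons _ s' _ c next l' h3 h4 h5 =>
        rw [hz] at h3
        simp at h3

end main

/-- Every nondeterministic (unambiguous) program is equivalent to a nondeterministic (unambiguous) program which is not
much larger and which queries, on nearly all inputs, nearly `1 / q` of the cells at most once in all computations with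
results. -/
theorem most_once_unamb {C W Z : Type} [Finite C] [Finite W] {S : ℕ} (P : NProg C W Z S) (v : W) (c0 : C) {δ : ℝ}
    (hδ : 0 < δ) :
    ∃ (S' : ℕ) (P' : NProg C W Z S'), S' ≤ (Nat.card C + 1) ^ 3 * (Nat.card W * S + 1) ∧ (Unamb P → Unamb P') ∧
      (∀ I z, (∃ l, P'.Ends I l z) ↔ ∃ l, P.Ends I l z) ∧
      (Nat.card {I : C → W // ¬ ∀ l z, P'.Ends I l z →
        (1 / (Nat.card W : ℝ) - δ) * Nat.card C ≤ Nat.card {x // times l x ≤ 1}} : ℝ) ≤
        4 / (δ ^ 2 * Nat.card C) * Nat.card (C → W) := by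
  classical
  have : Fintype C := Fintype.ofFinite C
  have : Fintype W := Fintype.ofFinite W
  obtain ⟨S', P', h1, h2, h4, h3⟩ := once_unamb P v c0
  refine ⟨S', P', ?_, h4, h2, count_once P' v c0 h3 hδ⟩
  rw [Nat.card_eq_fintype_card, Nat.card_eq_fintype_card]
  exact h1

end Pool.Agent.Helper74.RT
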