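import Pool.Agent.Helper74.RT.Complete

/-!
# The simulation: on nearly all inputs nearly `1 / q` of the cells are queried at most once
-/

set_option autoImplicit false
set_option linter.unusedSectionVars false

namespace Pool.Agent.Helper74.RT

open Finset Pool.Agent.Helper74.NW
open Pool.Agent.Helper99.NK (times)

section cheb

variable {C W : Type} [Fintype C] [Fintype W] [DecidableEq C] [DecidableEq W]

/-- The deviation at one cell. -/
noncomputable def dev (v w : W) : ℝ := (if w = v then 1 else 0) - 1 / Fintype.card W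

theorem sum_dev (v : W) : ∑ w, dev v w = 0 := by
  have hq : (Fintype.card W : ℝ) ≠ 0 := by
    have : 0 < Fintype.card W := Fintype.card_pos_iff.2 ⟨v⟩
    positivity
  unfold dev
  rw [sum_sub_distrib, sum_ite_eq' univ v, if_pos (mem_univ v), sum_const, card_univ, nsmul_eq_mul,
    mul_one_div_cancel hq, sub_self]

theorem dev_sq_le (v w : W) : dev v w ^ 2 ≤ 1 := by
  have hq : (1 : ℝ) ≤ Fintype.card W := by
    have : 0 < Fintype.card W := Fintype.card_pos_iff.2 ⟨v⟩
    exact_mod_cast this
  have h1 : 0 ≤ 1 / (Fintype.card W : ℝ) := by positivity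
  have h2 : 1 / (Fintype.card W : ℝ) ≤ 1 := by
    rw [div_le_one (by linarith)]
    exact hq
  unfold dev
  split_ifs <;> nlinarith

theorem sum_dev_mul (v : W) {x y : C} (hxy : y ≠ x) : ∑ I : C → W, dev v (I x) * dev v (I y) = 0 := by
  have h1 : ∑ I : C → W, dev v (I x) * dev v (I y) =
      ∑ p : W × ({j // j ≠ x} → W), dev v p.1 * dev v (p.2 ⟨y, hxy⟩) := by
    refine Fintype.sum_equiv (Equiv.funSplitAt x W) _ _ fun I => ?_
    rfl
  rw [h1, Fintype.sum_prod_type]
  have h2 : ∀ w : W, ∑ J : {j // j ≠ x} → W, dev v w * dev v (J ⟨y, hxy⟩) =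
      dev v w * ∑ J : {j // j ≠ x} → W, dev v (J ⟨y, hxy⟩) := fun w => (mul_sum _ _ _).symm
  simp_rw [h2]
  rw [← sum_mul, sum_dev, zero_mul]

theorem second_moment (v : W) :
    ∑ I : C → W, (∑ x, dev v (I x)) ^ 2 ≤ Fintype.card C * Fintype.card (C → W) := by
  have h1 : ∀ I : C → W, (∑ x, dev v (I x)) ^ 2 = ∑ x, ∑ y, dev v (I x) * dev v (I y) := by
    intro I
    rw [sq, sum_mul_sum]
  simp_rw [h1]
  rw [sum_comm]
  calc ∑ x, ∑ I : C → W, ∑ y, dev v (I x) * dev v (I y)
      = ∑ x, ∑ I : C → W, dev v (I x) ^ 2 := by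
        refine sum_congr rfl fun x _ => ?_
        rw [sum_comm, sum_eq_single x]
        · exact sum_congr rfl fun I _ => (sq _).symm
        · intro y _ hy
          exact sum_dev_mul v hy
        · intro h
          exact absurd (mem_univ x) h
    _ ≤ ∑ x : C, ∑ I : C → W, (1 : ℝ) := by
        exact sum_le_sum fun x _ => sum_le_sum fun I _ => dev_sq_le v (I x)
    _ = Fintype.card C * Fintype.card (C → W) := by
        rw [sum_const, sum_const, card_univ, card_univ, nsmul_eq_mul, nsmul_eq_mul, mul_one]

/-- Chebyshev. -/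
theorem few_v (v : W) {δ : ℝ} (hδ : 0 < δ) (hN : 2 ≤ δ * Fintype.card C) :
    ((univ.filter (fun I : C → W => ((univ.filter (fun x => I x = v)).card : ℝ) <
      (1 / Fintype.card W - δ) * Fintype.card C + 1)).card : ℝ) ≤
      4 / (δ ^ 2 * Fintype.card C) * Fintype.card (C → W) := by
  have hN0 : (0 : ℝ) < Fintype.card C := by
    by_contra h
    have : (Fintype.card C : ℝ) = 0 := le_antisymm (not_lt.1 h) (Nat.cast_nonneg _)
    rw [this] at hN
    linarith
  set B := univ.filter (fun I : C → W => ((univ.filter (fun x => I x = v)).card : ℝ) <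
      (1 / Fintype.card W - δ) * Fintype.card C + 1) with hB
  have h1 : ∀ I ∈ B, (δ * Fintype.card C / 2) ^ 2 ≤ (∑ x, dev v (I x)) ^ 2 := by
    intro I hI
    have h2 := (mem_filter.1 hI).2
    have h3 : ∑ x, dev v (I x) = ((univ.filter (fun x => I x = v)).card : ℝ) -
        1 / Fintype.card W * Fintype.card C := by
      unfold dev
      rw [sum_sub_distrib, sum_const, card_univ, nsmul_eq_mul, sum_boole]
      ring
    have h4 : ∑ x, dev v (I x) ≤ -(δ * Fintype.card C / 2) := by
      rw [h3]
      linarith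
    have h5 : 0 ≤ δ * Fintype.card C / 2 := by positivity
    nlinarith
  have h2 : (B.card : ℝ) * (δ * Fintype.card C / 2) ^ 2 ≤ Fintype.card C * Fintype.card (C → W) := by
    calc (B.card : ℝ) * (δ * Fintype.card C / 2) ^ 2 = ∑ _I ∈ B, (δ * Fintype.card C / 2) ^ 2 := by
          rw [sum_const, nsmul_eq_mul]
      _ ≤ ∑ I ∈ B, (∑ x, dev v (I x)) ^ 2 := sum_le_sum h1
      _ ≤ ∑ I : C → W, (∑ x, dev v (I x)) ^ 2 :=
          sum_le_sum_of_subset_of_nonneg (subset_univ _) fun _ _ _ => sq_nonneg _
      _ ≤ _ := second_moment v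
  have h3 : (0 : ℝ) < (δ * Fintype.card C / 2) ^ 2 := by positivity
  calc (B.card : ℝ) ≤ Fintype.card C * Fintype.card (C → W) / (δ * Fintype.card C / 2) ^ 2 := by
        rw [le_div_iff₀ h3]
        exact h2
    _ = 4 / (δ ^ 2 * Fintype.card C) * Fintype.card (C → W) := by
        field_simp
        ring

end cheb

/-- If the cells with the value `v`, with the exception of one cell, are queried at most once, then on nearly all inputs
nearly `1 / q` of the cells are queried at most once. -/
theorem count_once {C W Z : Type} [Finite C] [Finite W] {S' : ℕ} (P' : NProg C W Z S') (v : W) (c0 : C)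
    (h3 : ∀ I l z, P'.Ends I l z → ∀ x, x ≠ c0 → I x = v → times l x ≤ 1) {δ : ℝ} (hδ : 0 < δ) :
    (Nat.card {I : C → W // ¬ ∀ l z, P'.Ends I l z →
      (1 / (Nat.card W : ℝ) - δ) * Nat.card C ≤ Nat.card {x // times l x ≤ 1}} : ℝ) ≤
      4 / (δ ^ 2 * Nat.card C) * Nat.card (C → W) := by
  classical
  have : Fintype C := Fintype.ofFinite C
  have : Fintype W := Fintype.ofFinite W
  simp only [Nat.card_eq_fintype_card (α := C), Nat.card_eq_fintype_card (α := W),
    Nat.card_eq_fintype_card (α := C → W)]
  have hN : (1 : ℝ) ≤ Fintype.card C := by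
    have : 0 < Fintype.card C := Fintype.card_pos_iff.2 ⟨c0⟩
    exact_mod_cast this
  have hq : (1 : ℝ) ≤ Fintype.card W := by
    have : 0 < Fintype.card W := Fintype.card_pos_iff.2 ⟨v⟩
    exact_mod_cast this
  have hqi : 1 / (Fintype.card W : ℝ) ≤ 1 := by
    rw [div_le_one (by linarith)]
    exact hq
  rw [Nat.card_eq_fintype_card, Fintype.card_subtype]
  by_cases hδN : 2 ≤ δ * Fintype.card C
  · refine le_trans ?_ (few_v v hδ hδN)
    have h4 : (univ.filter (fun I : C → W => ¬ ∀ l z, P'.Ends I l z →
        (1 / (Fintype.card W : ℝ) - δ) * Fintype.card C ≤ Nat.card {x // times l x ≤ 1})) ⊆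
        univ.filter (fun I : C → W => ((univ.filter (fun x => I x = v)).card : ℝ) <
          (1 / Fintype.card W - δ) * Fintype.card C + 1) := by
      intro I hI
      rw [mem_filter] at hI ⊢
      refine ⟨mem_univ _, ?_⟩
      by_contra h5
      apply hI.2
      intro l z h6
      have h7 : (univ.filter (fun x => I x = v)).card ≤ Nat.card {x // times l x ≤ 1} + 1 := by
        rw [Nat.card_eq_fintype_card, Fintype.card_subtype]
        calc (univ.filter (fun x => I x = v)).card
            ≤ ((univ.filter (fun x => times l x ≤ 1)) ∪ {c0}).card := by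
              refine card_le_card fun x hx => ?_
              rw [mem_union, mem_filter, mem_singleton]
              by_cases hxc : x = c0
              · exact Or.inr hxc
              · exact Or.inl ⟨mem_univ _, h3 I l z h6 x hxc (mem_filter.1 hx).2⟩
          _ ≤ _ := (card_union_le _ _).trans (by rw [card_singleton])
      have h8 : ((univ.filter (fun x => I x = v)).card : ℝ) ≤ Nat.card {x // times l x ≤ 1} + 1 := by
        exact_mod_cast h7
      linarith [not_lt.1 h5]
    exact_mod_cast card_le_card h4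
  · push Not at hδN
    have hδ2 : δ < 2 := by nlinarith
    by_cases hδ1 : δ ≤ 1
    · have h4 : ((univ.filter (fun I : C → W => ¬ ∀ l z, P'.Ends I l z →
          (1 / (Fintype.card W : ℝ) - δ) * Fintype.card C ≤ Nat.card {x // times l x ≤ 1})).card : ℝ) ≤
          Fintype.card (C → W) := by
        exact_mod_cast card_le_univ _
      refine h4.trans (le_mul_of_one_le_left (Nat.cast_nonneg _) ?_)
      rw [le_div_iff₀ (by positivity)]
      nlinarith
    · have h4 : (univ.filter (fun I : C → W => ¬ ∀ l z, P'.Ends I l z →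
          (1 / (Fintype.card W : ℝ) - δ) * Fintype.card C ≤ Nat.card {x // times l x ≤ 1})) = ∅ := by
        rw [filter_eq_empty_iff]
        intro I _ h5
        apply h5
        intro l z _
        have h6 : (1 / (Fintype.card W : ℝ) - δ) * Fintype.card C ≤ 0 :=
          mul_nonpos_of_nonpos_of_nonneg (by linarith) (by linarith)
        exact h6.trans (Nat.cast_nonneg _)
      rw [h4, card_empty, Nat.cast_zero]
      positivity

/-- Every nondeterministic program is equivalent to one which is not much larger and which queries, on nearly all inputs,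
nearly `1 / q` of the cells at most once in all computations with results. -/
theorem most_once {C W Z : Type} [Finite C] [Finite W] {S : ℕ} (P : NProg C W Z S) (v : W) (c0 : C) {δ : ℝ}
    (hδ : 0 < δ) :
    ∃ (S' : ℕ) (P' : NProg C W Z S'), S' ≤ (Nat.card C + 1) ^ 3 * (Nat.card W * S + 1) ∧
      (∀ I z, (∃ l, P'.Ends I l z) ↔ ∃ l, P.Ends I l z) ∧
      (Nat.card {I : C → W // ¬ ∀ l z, P'.Ends I l z →
        (1 / (Nat.card W : ℝ) - δ) * Nat.card C ≤ Nat.card {x // times l x ≤ 1}} : ℝ) ≤
        4 / (δ ^ 2 * Nat.card C) * Nat.card (C → W) := by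
  classical
  have : Fintype C := Fintype.ofFinite C
  have : Fintype W := Fintype.ofFinite W
  obtain ⟨S', P', h1, h2, h3⟩ := once P v c0
  refine ⟨S', P', ?_, h2, count_once P' v c0 h3 hδ⟩
  rw [Nat.card_eq_fintype_card, Nat.card_eq_fintype_card]
  exact h1

end Pool.Agent.Helper74.RT
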