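import Pool.Agent.Helper74.RT.Equiv

/-!
# The simulation: every computation is simulated
-/

set_option autoImplicit false
set_option linter.unusedSectionVars false

namespace Pool.Agent.Helper74.RT

open Finset Pool.Agent.Helper74.NW
open Pool.Agent.Helper99.NK (times)

section sim

variable {C W Z : Type} {N S : ℕ} {P : NProg C W Z S} {e : C ≃ Fin N} {c0 : C} {v : W} [Fintype C]

theorem goV_skip {w : Fin (N + 1)} {c y : ℕ} {q : St N S W} (h : q ∈ goV P w c (y + 1)) : q ∈ goV P w c y := by
  rcases h with ⟨c', y', h1, h2, rfl⟩ | h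
  · exact Or.inl ⟨c', y', h1, by omega, rfl⟩
  · exact Or.inr h

theorem goA_skip {w : Fin (N + 1)} {s : Fin S} {k : ℕ} {r : W} {y : ℕ} (hy : y < N) {q : St N S W}
    (h : q ∈ goA P w s (k + 1) r (y + 1)) : q ∈ goA P w s k r y := by
  rcases h with ⟨k', y', h1, h2, rfl⟩ | ⟨h1, h2⟩
  · exact Or.inl ⟨k', y', by omega, by omega, rfl⟩
  · exact Or.inr ⟨by omega, h2⟩

/-- The first part can reach every state in which the second part can start. -/
theorem compV (I : C → W) {w : Fin (N + 1)} (hw : (w : ℕ) = one e v I N) {q' : St N S W}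
    (hq : q' ∈ goS P w P.start) (m y : ℕ) (hm : y + m = N) :
    ∃ q ∈ goV P w (one e v I y) y, ∃ l, QRun (act P e c0 v) I q l q' := by
  classical
  induction m generalizing y with
  | zero =>
    have hyN : y = N := by omega
    refine ⟨q', Or.inr ⟨?_, hq⟩, [], QRun.nil _⟩
    rw [hw, hyN]
  | succ m ih =>
    have hy : y < N := by omega
    obtain ⟨q, h1, l, h2⟩ := ih (y + 1) (by omega)
    have h3 := one_succ e v I hy
    by_cases h4 : I (e.symm ⟨y, hy⟩) = v
    · rw [if_pos h4] at h3
      have h5 : one e v I y < N + 1 := by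
        have := one_le e v I hy.le
        omega
      refine ⟨.ver w ⟨one e v I y, h5⟩ ⟨y, hy⟩, Or.inl ⟨_, _, rfl, le_rfl, rfl⟩, e.symm ⟨y, hy⟩ :: l,
        QRun.cons _ q _ (e.symm ⟨y, hy⟩)
          (fun a => {q | a = v ∧ q ∈ goV P w (one e v I y + 1) (y + 1)}) l rfl ⟨h4, ?_⟩ h2⟩
      rw [← h3]
      exact h1
    · rw [if_neg h4, add_zero] at h3
      rw [h3] at h1
      exact ⟨q, goV_skip h1, l, h2⟩

open Classical in
/-- The content of the cell of the state `s` before the cell `y` is looked at. -/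
noncomputable def rc (e : C ≃ Fin N) (v : W) (I : C → W) (x : C) (y : ℕ) : W := if (e x : ℕ) < y then I x else v

theorem compA (I : C → W) {w : Fin (N + 1)} (hw : (w : ℕ) = one e v I N) {s : Fin S} {x : C}
    {nx : W → Set (Fin S)} (hs : P.act s = .inl (x, nx)) {s' : Fin S} (hs' : s' ∈ nx (I x)) {q' : St N S W}
    (hq : q' ∈ goS P w s') (m y : ℕ) (hm : y + m = N) :
    ∃ q ∈ goA P w s (one e v I y) (rc e v I x y) y, ∃ l, QRun (act P e c0 v) I q l q' := by
  classical
  induction m generalizing y with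
  | zero =>
    have hyN : y = N := by omega
    refine ⟨q', Or.inr ⟨?_, x, nx, hs, s', ?_, hq⟩, [], QRun.nil _⟩
    · rw [hw, hyN, Nat.sub_self, add_zero]
    · unfold rc
      rw [if_pos]
      · exact hs'
      · rw [hyN]
        exact (e x).2
  | succ m ih =>
    have hy : y < N := by omega
    obtain ⟨q, h1, l, h2⟩ := ih (y + 1) (by omega)
    have h3 := one_succ e v I hy
    by_cases h4 : I (e.symm ⟨y, hy⟩) = v
    · rw [if_pos h4] at h3
      have h5 : rc e v I x (y + 1) = rc e v I x y := by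
        unfold rc
        by_cases h6 : (e x : ℕ) < y
        · rw [if_pos h6, if_pos (by omega)]
        · rw [if_neg h6]
          by_cases h7 : (e x : ℕ) = y
          · have h8 : e.symm ⟨y, hy⟩ = x := by
              rw [Equiv.symm_apply_eq]
              exact Fin.ext h7.symm
            rw [if_pos (by omega), ← h8, h4]
          · rw [if_neg (by omega)]
      rw [h3, h5] at h1
      exact ⟨q, goA_skip hy h1, l, h2⟩
    · rw [if_neg h4, add_zero] at h3
      have h5 : one e v I y < N + 1 := by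
        have := one_le e v I hy.le
        omega
      have h6 : rc e v I x (y + 1) = upd P s (e.symm ⟨y, hy⟩) (I (e.symm ⟨y, hy⟩)) (rc e v I x y) := by
        unfold upd
        by_cases h7 : x = e.symm ⟨y, hy⟩
        · rw [if_pos ⟨nx, by rw [hs, h7]⟩]
          unfold rc
          have h8 : (e x : ℕ) = y := by rw [h7, Equiv.apply_symm_apply]
          rw [if_pos (by omega), h7]
        · have h8 : (e x : ℕ) ≠ y := by
            intro h9
            apply h7
            rw [Equiv.eq_symm_apply]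
            exact Fin.ext h9
          rw [if_neg]
          · unfold rc
            by_cases h9 : (e x : ℕ) < y
            · rw [if_pos h9, if_pos (by omega)]
            · rw [if_neg h9, if_neg (by omega)]
          · rintro ⟨nx', h10⟩
            rw [hs] at h10
            exact h7 (Prod.mk.inj (Sum.inl_injective h10)).1
      refine ⟨.ask w s ⟨one e v I y, h5⟩ (rc e v I x y) ⟨y, hy⟩,
        Or.inl ⟨_, _, le_rfl, by rw [Nat.sub_self, add_zero], rfl⟩, e.symm ⟨y, hy⟩ :: l,
        QRun.cons _ q _ (e.symm ⟨y, hy⟩)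
          (fun a => {q | a ≠ v ∧ q ∈ goA P w s (one e v I y) (upd P s (e.symm ⟨y, hy⟩) a (rc e v I x y)) (y + 1)})
          l rfl ⟨h4, ?_⟩ h2⟩
      rw [← h6, ← h3]
      exact h1

theorem comp (h0 : (e c0 : ℕ) = 0) (I : C → W) {w : Fin (N + 1)} (hw : (w : ℕ) = one e v I N) {s t : Fin S}
    {l : List C} (h : P.Run I s l t) {z : Z} (ht : P.act t = .inr z) :
    ∃ q ∈ goS P w s, ∃ l', QRun (act P e c0 v) I q l' (.fin t) := by
  classical
  have hN : 0 < N := by
    have := (e c0).2
    omega
  have hsym : e.symm ⟨0, hN⟩ = c0 := by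
    rw [Equiv.symm_apply_eq]
    exact Fin.ext h0.symm
  have h1 := one_succ e v I hN
  rw [one_zero, zero_add, zero_add, hsym] at h1
  induction h with
  | nil s => exact ⟨.fin s, Or.inl ⟨⟨z, ht⟩, rfl⟩, [], QRun.nil _⟩
  | cons s s' t x nx l h2 h3 _ ih =>
    obtain ⟨q', h4, l', h5⟩ := ih ht
    obtain ⟨q, h6, l2, h7⟩ := compA (e := e) (c0 := c0) (v := v) I hw h2 h3 h4 (N - 1) 1 (by omega)
    refine ⟨.scan w s, Or.inr ⟨⟨_, h2⟩, rfl⟩, c0 :: (l2 ++ l'),
      QRun.cons _ q _ c0 (fun a => goA P w s (if a = v then 1 else 0) (upd P s c0 a v) 1) _ rfl ?_ (h7.append h5)⟩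
    have h8 : rc e v I x 1 = upd P s c0 (I c0) v := by
      unfold upd rc
      by_cases h9 : x = c0
      · have h10 : (e x : ℕ) < 1 := by rw [h9, h0]; exact Nat.one_pos
        rw [if_pos h10, if_pos ⟨nx, by rw [h2, h9]⟩, h9]
      · rw [if_neg, if_neg]
        · rintro ⟨nx', h10⟩
          rw [h2] at h10
          exact h9 (Prod.mk.inj (Sum.inl_injective h10)).1
        · intro h10
          apply h9
          apply e.injective
          exact Fin.ext (by omega)
    rw [h1, h8] at h6
    exact h6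

theorem complete (h0 : (e c0 : ℕ) = 0) (I : C → W) {l : List C} {z : Z} (h : P.Ends I l z) :
    ∃ l' t, QRun (act P e c0 v) I .init l' t ∧ act P e c0 v t = .inr z := by
  classical
  have hN : 0 < N := by
    have := (e c0).2
    omega
  have hsym : e.symm ⟨0, hN⟩ = c0 := by
    rw [Equiv.symm_apply_eq]
    exact Fin.ext h0.symm
  have h1 := one_succ e v I hN
  rw [one_zero, zero_add, zero_add, hsym] at h1
  obtain ⟨t, h2, h3⟩ := h
  have h4 : one e v I N < N + 1 := by
    have := one_le e v I (le_refl N)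
    omega
  obtain ⟨q', h5, l1, h6⟩ := comp (c0 := c0) (v := v) (w := ⟨one e v I N, h4⟩) h0 I rfl h2 h3
  obtain ⟨q, h7, l2, h8⟩ := compV (e := e) (c0 := c0) (v := v) (w := ⟨one e v I N, h4⟩) I rfl h5 (N - 1) 1 (by omega)
  refine ⟨c0 :: (l2 ++ l1), .fin t, QRun.cons _ q _ c0
    (fun a => {q | ∃ w, q ∈ goV P w (if a = v then 1 else 0) 1}) _ rfl ⟨⟨one e v I N, h4⟩, ?_⟩ (h8.append h6), ?_⟩
  · rw [← h1]
    exact h7
  · show (P.act t).map _ _ = _
    rw [h3]
    rfl

end sim

section main

variable {C W Z : Type} [Fintype C] [Fintype W]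

/-- Every nondeterministic program with `S` states is equivalent to one with at most `(N + 1) ^ 3 * (q * S + 1)` states
(`N` cells, `q` values) all of whose computations with results query the cells with the value `v` (with the exception of
one cell `c0`) at most once. -/
theorem once {S : ℕ} (P : NProg C W Z S) (v : W) (c0 : C) :
    ∃ (S' : ℕ) (P' : NProg C W Z S'), S' ≤ (Fintype.card C + 1) ^ 3 * (Fintype.card W * S + 1) ∧
      (∀ I z, (∃ l, P'.Ends I l z) ↔ ∃ l, P.Ends I l z) ∧
      ∀ I l z, P'.Ends I l z → ∀ x, x ≠ c0 → I x = v → times l x ≤ 1 := by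
  classical
  have hN : 0 < Fintype.card C := Fintype.card_pos_iff.2 ⟨c0⟩
  obtain ⟨e, he⟩ : ∃ e : C ≃ Fin (Fintype.card C), (e c0 : ℕ) = 0 := by
    refine ⟨(Fintype.equivFin C).trans (Equiv.swap (Fintype.equivFin C c0) ⟨0, hN⟩), ?_⟩
    rw [Equiv.trans_apply, Equiv.swap_apply_left]
  refine ⟨_, toProg .init (act P e c0 v), card_St _ _ _ hN (Fintype.card_pos_iff.2 ⟨v⟩), fun I z => ⟨?_, ?_⟩, ?_⟩
  · rintro ⟨l, h⟩
    obtain ⟨t, h1, h2⟩ := (toProg_ends _ _ _ _ _).1 h
    exact sound he h1 h2
  · rintro ⟨l, h⟩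
    obtain ⟨l', t, h1, h2⟩ := complete (v := v) he I h
    exact ⟨l', (toProg_ends _ _ _ _ _).2 ⟨t, h1, h2⟩⟩
  · intro I l z h x hx hv
    obtain ⟨t, h1, h2⟩ := (toProg_ends _ _ _ _ _).1 h
    exact few h1 h2 hx hv

end main

end Pool.Agent.Helper74.RT
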