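import Pool.Agent.Helper74.RT.Sim
import Pool.Agent.Helper99.NK.Times

/-!
# The simulation: correctness
-/

set_option autoImplicit false

namespace Pool.Agent.Helper74.RT

open Finset Pool.Agent.Helper74.NW
open Pool.Agent.Helper99.NK (times)

theorem times_nil {C : Type} (x : C) : times ([] : List C) x = 0 := by
  unfold times
  simp

open Classical in
theorem times_cons {C : Type} (c : C) (l : List C) (x : C) :
    times (c :: l) x = times l x + if c = x then 1 else 0 := by
  unfold times
  rw [List.count_cons]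
  congr 1
  by_cases h : c = x
  · rw [if_pos h, if_pos (beq_iff_eq.2 h)]
  · rw [if_neg h, if_neg (fun h' => h (beq_iff_eq.1 h'))]

section sim

variable {C W Z : Type} {N S : ℕ} {P : NProg C W Z S} {e : C ≃ Fin N} {c0 : C} {v : W} [Fintype C]

/-- The meaning of the states of a computation with the result `z`. -/
def Ok (P : NProg C W Z S) (e : C ≃ Fin N) (v : W) (I : C → W) (z : Z) : St N S W → Prop
  | .init => ∃ l, P.Ends I l z
  | .ver _ c y => (c : ℕ) ≤ one e v I y → ∃ l, P.Ends I l z
  | .scan w s => (w : ℕ) ≤ one e v I N → ∃ l t, P.Run I s l t ∧ P.act t = .inr z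
  | .ask w s k r y => (w : ℕ) ≤ one e v I N → Inv P e v I s k r y → ∃ l t, P.Run I s l t ∧ P.act t = .inr z
  | .fin s => P.act s = .inr z

theorem okS {I : C → W} {z : Z} {w : Fin (N + 1)} {s : Fin S} {q : St N S W} (hq : q ∈ goS P w s)
    (hw : (w : ℕ) ≤ one e v I N) (h : Ok P e v I z q) : ∃ l t, P.Run I s l t ∧ P.act t = .inr z := by
  rcases hq with ⟨-, rfl⟩ | ⟨-, rfl⟩
  · exact ⟨[], s, NProg.Run.nil s, h⟩
  · exact h hw

theorem okV {I : C → W} {z : Z} {w : Fin (N + 1)} {c y : ℕ} {q : St N S W} (hq : q ∈ goV P w c y)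
    (hc : c ≤ one e v I y) (hy : y ≤ N) (h : Ok P e v I z q) : ∃ l, P.Ends I l z := by
  rcases hq with ⟨c', y', h1, h2, rfl⟩ | ⟨h1, h2⟩
  · exact h (by rw [h1]; exact hc.trans (one_mono e v I h2))
  · exact okS h2 (by rw [← h1]; exact hc.trans (one_mono e v I hy)) h

theorem okA {I : C → W} {z : Z} {w : Fin (N + 1)} {s : Fin S} {k : ℕ} {r : W} {y : ℕ} {q : St N S W}
    (hq : q ∈ goA P w s k r y) (hw : (w : ℕ) ≤ one e v I N) (hi : Inv P e v I s k r y) (hy : y ≤ N)
    (h : Ok P e v I z q) : ∃ l t, P.Run I s l t ∧ P.act t = .inr z := by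
  rcases hq with ⟨k', y', h1, h2, rfl⟩ | ⟨h1, x, nx, h2, s', h3, h4⟩
  · refine h hw ?_
    rw [h2]
    exact hi.skip h1 y'.2.le
  · obtain ⟨l, t, h5, h6⟩ := okS h4 hw h
    rw [hi.done hy hw h1 h2] at h3
    exact ⟨x :: l, t, NProg.Run.cons s s' t x nx l h2 h3 h5, h6⟩

theorem sound (h0 : (e c0 : ℕ) = 0) {I : C → W} {z : Z} {q t : St N S W} {l : List C}
    (h : QRun (act P e c0 v) I q l t) (ht : act P e c0 v t = .inr z) : Ok P e v I z q := by
  classical
  have hN : 0 < N := by
    have := (e c0).2
    omega
  induction h with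
  | nil q =>
    cases q with
    | init => simp [act] at ht
    | ver w c y => simp [act] at ht
    | scan w s => simp [act] at ht
    | ask w s k r y => simp [act] at ht
    | fin s =>
      show P.act s = .inr z
      have h1 : (P.act s).map (fun _ => (c0, fun _ => ∅)) id = (.inr z : (C × (W → Set (St N S W))) ⊕ Z) := ht
      cases h2 : P.act s with
      | inl p =>
        rw [h2] at h1
        simp at h1
      | inr z' =>
        rw [h2, Sum.map_inr] at h1
        exact congrArg Sum.inr (Sum.inr_injective h1)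
  | cons q q' t c next l h1 h2 _ ih =>
    have ih := ih ht
    cases q with
    | init =>
      have h3 := Sum.inl_injective h1
      rw [Prod.mk.injEq] at h3
      obtain ⟨rfl, rfl⟩ := h3
      obtain ⟨w, h4⟩ := h2
      refine okV h4 ?_ hN ih
      have h5 := one_succ e v I hN
      have h6 : e.symm ⟨0, hN⟩ = c0 := by
        rw [Equiv.symm_apply_eq]
        exact Fin.ext h0.symm
      rw [one_zero, zero_add, zero_add, h6] at h5
      exact h5.ge
    | ver w c' y =>
      have h3 := Sum.inl_injective h1
      rw [Prod.mk.injEq] at h3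
      obtain ⟨rfl, rfl⟩ := h3
      obtain ⟨h4, h5⟩ := h2
      intro h6
      refine okV h5 ?_ y.2 ih
      have h7 := one_succ e v I y.2
      rw [if_pos h4] at h7
      omega
    | scan w s =>
      have h3 := Sum.inl_injective h1
      rw [Prod.mk.injEq] at h3
      obtain ⟨rfl, rfl⟩ := h3
      intro h6
      exact okA h2 h6 (Inv.first h0 hN) hN ih
    | ask w s k r y =>
      have h3 := Sum.inl_injective h1
      rw [Prod.mk.injEq] at h3
      obtain ⟨rfl, rfl⟩ := h3
      obtain ⟨h4, h5⟩ := h2
      intro h6 h7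
      exact okA h5 h6 (h7.ask h4) y.2 ih
    | fin s =>
      exfalso
      have h3 : (P.act s).map (fun _ => (c0, fun _ => ∅)) id = (.inl (c, next) : (C × (W → Set (St N S W))) ⊕ Z) := h1
      cases h4 : P.act s with
      | inl p =>
        rw [h4, Sum.map_inl] at h3
        have h5 := (Prod.mk.inj (Sum.inl_injective h3)).2
        rw [← h5] at h2
        exact h2
      | inr z' =>
        rw [h4, Sum.map_inr] at h3
        simp at h3

/-- The cells with the value `v`, with the exception of `c0`, are queried at most once. -/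
theorem few {I : C → W} {z : Z} {q t : St N S W} {l : List C} (h : QRun (act P e c0 v) I q l t)
    (ht : act P e c0 v t = .inr z) {x : C} (hx : x ≠ c0) (hv : I x = v) :
    (match q with
      | .init => times l x ≤ 1
      | .ver _ _ y => times l x ≤ 1 ∧ ((e x : ℕ) < y → times l x = 0)
      | _ => times l x = 0) := by
  classical
  induction h with
  | nil q => cases q <;> simp [times_nil]
  | cons q q' t c next l h1 h2 _ ih =>
    have ih := ih ht
    have hS : ∀ {w : Fin (N + 1)} {s : Fin S}, q' ∈ goS P w s → times l x = 0 := by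
      rintro w s (⟨-, rfl⟩ | ⟨-, rfl⟩)
      · exact ih
      · exact ih
    have hA : ∀ {w : Fin (N + 1)} {s : Fin S} {k : ℕ} {r : W} {y : ℕ}, q' ∈ goA P w s k r y → times l x = 0 := by
      rintro w s k r y (⟨k', y', -, -, rfl⟩ | ⟨-, x', nx, -, s', -, h4⟩)
      · exact ih
      · exact hS h4
    cases q with
    | init =>
      have h3 := Sum.inl_injective h1
      rw [Prod.mk.injEq] at h3
      obtain ⟨rfl, rfl⟩ := h3
      obtain ⟨w, h4⟩ := h2
      show times (c0 :: l) x ≤ 1
      rw [times_cons, if_neg (Ne.symm hx), add_zero]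
      rcases h4 with ⟨c', y', -, -, rfl⟩ | ⟨-, h5⟩
      · exact ih.1
      · rw [hS h5]
        exact Nat.zero_le 1
    | ver w c' y =>
      have h3 := Sum.inl_injective h1
      rw [Prod.mk.injEq] at h3
      obtain ⟨rfl, rfl⟩ := h3
      obtain ⟨h4, h5⟩ := h2
      show times (e.symm y :: l) x ≤ 1 ∧ ((e x : ℕ) < y → times (e.symm y :: l) x = 0)
      rw [times_cons]
      have h6 : (e x : ℕ) < y + 1 → times l x = 0 := by
        intro h7
        rcases h5 with ⟨c'', y', -, h8, rfl⟩ | ⟨-, h8⟩
        · exact ih.2 (by omega)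
        · exact hS h8
      have h9 : times l x ≤ 1 := by
        rcases h5 with ⟨c'', y', -, h8, rfl⟩ | ⟨-, h8⟩
        · exact ih.1
        · rw [hS h8]
          exact Nat.zero_le 1
      by_cases h10 : e.symm y = x
      · have h11 : (e x : ℕ) = y := by rw [← h10, Equiv.apply_symm_apply]
        rw [if_pos h10, h6 (by omega)]
        exact ⟨le_rfl, fun h12 => absurd h12 (by omega)⟩
      · rw [if_neg h10, add_zero]
        exact ⟨h9, fun h12 => h6 (by omega)⟩
    | scan w s =>
      have h3 := Sum.inl_injective h1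
      rw [Prod.mk.injEq] at h3
      obtain ⟨rfl, rfl⟩ := h3
      show times (c0 :: l) x = 0
      rw [times_cons, if_neg (Ne.symm hx), add_zero]
      exact hA h2
    | ask w s k r y =>
      have h3 := Sum.inl_injective h1
      rw [Prod.mk.injEq] at h3
      obtain ⟨rfl, rfl⟩ := h3
      obtain ⟨h4, h5⟩ := h2
      show times (e.symm y :: l) x = 0
      rw [times_cons, if_neg, add_zero]
      · exact hA h5
      · rintro rfl
        exact h4 hv
    | fin s =>
      exfalso
      have h3 : (P.act s).map (fun _ => (c0, fun _ => ∅)) id = (.inl (c, next) : (C × (W → Set (St N S W))) ⊕ Z) := h1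
      cases h4 : P.act s with
      | inl p =>
        rw [h4, Sum.map_inl] at h3
        have h5 := (Prod.mk.inj (Sum.inl_injective h3)).2
        rw [← h5] at h2
        exact h2
      | inr z' =>
        rw [h4, Sum.map_inr] at h3
        simp at h3

end sim

end Pool.Agent.Helper74.RT
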