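import Pool.Agent.Helper74.RT.Typed

/-!
# Every nondeterministic program is equivalent to one which queries the cells with one value at most once

The program guesses the number `w` of the cells with the value `v` and queries `w` of them, each once. After that it
never queries a cell with the value `v`: before every step of the given program all cells are looked through, those with
the value `v` are skipped, and the number of the skipped cells is compared with `w`. (The cell `c0` is an exception.)
-/

set_option autoImplicit false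

namespace Pool.Agent.Helper74.RT

open Finset Pool.Agent.Helper74.NW

/-- The states: `ver w c y`: among the cells before `y` there are `c` cells for which the value `v` is verified, `y` is
queried; `scan w s`: the state `s` is simulated, `c0` is queried; `ask w s k r y`: the state `s` is simulated, `k` cells
before `y` were skipped, `r` is the content of the cell of the state `s`, `y` is queried; `fin s`: final. -/
inductive St (N S : ℕ) (W : Type)
  | init : St N S W
  | ver (w c : Fin (N + 1)) (y : Fin N) : St N S W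
  | scan (w : Fin (N + 1)) (s : Fin S) : St N S W
  | ask (w : Fin (N + 1)) (s : Fin S) (k : Fin (N + 1)) (r : W) (y : Fin N) : St N S W
  | fin (s : Fin S) : St N S W

/-- The type of the states as a sum. -/
def St.equiv (N S : ℕ) (W : Type) : St N S W ≃ (Unit ⊕ (Fin (N + 1) × Fin (N + 1) × Fin N)) ⊕
    ((Fin (N + 1) × Fin S) ⊕ ((Fin (N + 1) × Fin S × Fin (N + 1) × W × Fin N) ⊕ Fin S)) where
  toFun
    | .init => .inl (.inl ())
    | .ver w c y => .inl (.inr (w, c, y))
    | .scan w s => .inr (.inl (w, s))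
    | .ask w s k r y => .inr (.inr (.inl (w, s, k, r, y)))
    | .fin s => .inr (.inr (.inr s))
  invFun
    | .inl (.inl _) => .init
    | .inl (.inr (w, c, y)) => .ver w c y
    | .inr (.inl (w, s)) => .scan w s
    | .inr (.inr (.inl (w, s, k, r, y))) => .ask w s k r y
    | .inr (.inr (.inr s)) => .fin s
  left_inv q := by cases q <;> rfl
  right_inv q := by rcases q with (_ | ⟨w, c, y⟩) | (⟨w, s⟩ | (⟨w, s, k, r, y⟩ | s)) <;> rfl

instance {N S : ℕ} {W : Type} [Fintype W] : Fintype (St N S W) := Fintype.ofEquiv _ (St.equiv N S W).symm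

theorem card_St (N S : ℕ) (W : Type) [Fintype W] (hN : 1 ≤ N) (hW : 1 ≤ Fintype.card W) :
    Fintype.card (St N S W) ≤ (N + 1) ^ 3 * (Fintype.card W * S + 1) := by
  rw [Fintype.card_congr (St.equiv N S W)]
  simp only [Fintype.card_sum, Fintype.card_prod, Fintype.card_fin, Fintype.card_unit]
  obtain ⟨q, hq⟩ : ∃ q, Fintype.card W = q + 1 := ⟨Fintype.card W - 1, by omega⟩
  obtain ⟨M, hM⟩ : ∃ M, N = M + 1 := ⟨N - 1, by omega⟩
  rw [hq, hM]
  nlinarith [Nat.zero_le (M * S), Nat.zero_le (M * M * S), Nat.zero_le (q * S), Nat.zero_le (M * q * S),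
    Nat.zero_le (M * M * q * S), Nat.zero_le (M * M), Nat.zero_le M, Nat.zero_le S]

section sim

variable {C W Z : Type} {N S : ℕ} (P : NProg C W Z S) (e : C ≃ Fin N) (c0 : C) (v : W)

/-- The next state when the state `s` is reached. -/
def goS (w : Fin (N + 1)) (s : Fin S) : Set (St N S W) :=
  {q | (∃ z, P.act s = .inr z) ∧ q = .fin s ∨ (∃ p, P.act s = .inl p) ∧ q = .scan w s}

/-- The next states in the first part. -/
def goV (w : Fin (N + 1)) (c y : ℕ) : Set (St N S W) :=
  {q | (∃ (c' : Fin (N + 1)) (y' : Fin N), (c' : ℕ) = c ∧ y ≤ y' ∧ q = .ver w c' y') ∨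
    c = w ∧ q ∈ goS P w P.start}

/-- The next states in the second part. -/
def goA (w : Fin (N + 1)) (s : Fin S) (k : ℕ) (r : W) (y : ℕ) : Set (St N S W) :=
  {q | (∃ (k' : Fin (N + 1)) (y' : Fin N), y ≤ y' ∧ (k' : ℕ) = k + (y' - y) ∧ q = .ask w s k' r y') ∨
    k + (N - y) = w ∧ ∃ x nx, P.act s = .inl (x, nx) ∧ ∃ s' ∈ nx r, q ∈ goS P w s'}

open Classical in
/-- The new content. -/
noncomputable def upd (s : Fin S) (c : C) (a r : W) : W := if ∃ nx, P.act s = .inl (c, nx) then a else r

open Classical in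
/-- The program. -/
noncomputable def act : St N S W → (C × (W → Set (St N S W))) ⊕ Z
  | .init => .inl (c0, fun a => {q | ∃ w, q ∈ goV P w (if a = v then 1 else 0) 1})
  | .ver w c y => .inl (e.symm y, fun a => {q | a = v ∧ q ∈ goV P w (c + 1) (y + 1)})
  | .scan w s => .inl (c0, fun a => goA P w s (if a = v then 1 else 0) (upd P s c0 a v) 1)
  | .ask w s k r y => .inl (e.symm y, fun a => {q | a ≠ v ∧ q ∈ goA P w s k (upd P s (e.symm y) a r) (y + 1)})
  | .fin s => (P.act s).map (fun _ => (c0, fun _ => ∅)) id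

open Classical in
/-- The number of the cells before `y` with the value `v`. -/
noncomputable def one [Fintype C] (I : C → W) (y : ℕ) : ℕ :=
  (univ.filter (fun x : C => (e x : ℕ) < y ∧ I x = v)).card

variable [Fintype C]

theorem one_zero (I : C → W) : one e v I 0 = 0 := by
  unfold one
  simp

open Classical in
theorem one_succ (I : C → W) {y : ℕ} (hy : y < N) :
    one e v I (y + 1) = one e v I y + if I (e.symm ⟨y, hy⟩) = v then 1 else 0 := by
  classical
  unfold one
  split_ifs with h
  · have h1 : univ.filter (fun x : C => (e x : ℕ) < y + 1 ∧ I x = v) =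
        insert (e.symm ⟨y, hy⟩) (univ.filter (fun x : C => (e x : ℕ) < y ∧ I x = v)) := by
      ext x
      simp only [mem_filter, mem_univ, true_and, mem_insert]
      constructor
      · rintro ⟨h2, h3⟩
        rcases Nat.lt_succ_iff_lt_or_eq.1 h2 with h4 | h4
        · exact Or.inr ⟨h4, h3⟩
        · left
          rw [Equiv.eq_symm_apply]
          exact Fin.ext h4
      · rintro (rfl | ⟨h2, h3⟩)
        · rw [Equiv.apply_symm_apply]
          exact ⟨Nat.lt_succ_self y, h⟩
        · exact ⟨Nat.lt_succ_of_lt h2, h3⟩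
    rw [h1, card_insert_of_notMem]
    intro h2
    have h3 := (mem_filter.1 h2).2.1
    rw [Equiv.apply_symm_apply] at h3
    exact lt_irrefl _ h3
  · rw [add_zero]
    congr 1
    ext x
    simp only [mem_filter, mem_univ, true_and]
    constructor
    · rintro ⟨h2, h3⟩
      rcases Nat.lt_succ_iff_lt_or_eq.1 h2 with h4 | h4
      · exact ⟨h4, h3⟩
      · exfalso
        apply h
        have h5 : e.symm ⟨y, hy⟩ = x := by
          rw [Equiv.symm_apply_eq]
          exact Fin.ext h4.symm
        rw [h5]
        exact h3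
    · rintro ⟨h2, h3⟩
      exact ⟨Nat.lt_succ_of_lt h2, h3⟩

theorem one_mono (I : C → W) {y y' : ℕ} (h : y ≤ y') : one e v I y ≤ one e v I y' := by
  classical
  unfold one
  refine card_le_card fun x hx => ?_
  rw [mem_filter] at hx ⊢
  exact ⟨mem_univ _, hx.2.1.trans_le h, hx.2.2⟩

theorem one_le (I : C → W) {y : ℕ} (hy : y ≤ N) : one e v I y ≤ y := by
  induction y with
  | zero => rw [one_zero]
  | succ y ih =>
    rw [one_succ e v I (by omega : y < N)]
    have := ih (by omega)
    split_ifs <;> omega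

/-- The invariant of the second part. -/
def Inv (I : C → W) (s : Fin S) (k : ℕ) (r : W) (y : ℕ) : Prop :=
  one e v I y ≤ k ∧ (one e v I y = k → ∀ x nx, P.act s = .inl (x, nx) →
    ((e x : ℕ) < y → r = I x) ∧ (y ≤ (e x : ℕ) → r = v))

variable {P e v}

theorem Inv.skip_one {I : C → W} {s : Fin S} {k : ℕ} {r : W} {y : ℕ} (h : Inv P e v I s k r y) (hy : y < N) :
    Inv P e v I s (k + 1) r (y + 1) := by
  obtain ⟨h1, h2⟩ := h
  have h3 := one_succ e v I hy
  refine ⟨?_, fun h4 x nx hx => ?_⟩
  · rw [h3]
    split_ifs <;> omega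
  · by_cases h5 : I (e.symm ⟨y, hy⟩) = v
    · rw [if_pos h5] at h3
      obtain ⟨h6, h7⟩ := h2 (by omega) x nx hx
      refine ⟨fun h8 => ?_, fun h8 => h7 (by omega)⟩
      rcases Nat.lt_succ_iff_lt_or_eq.1 h8 with h9 | h9
      · exact h6 h9
      · have h10 : e.symm ⟨y, hy⟩ = x := by
          rw [Equiv.symm_apply_eq]
          exact Fin.ext h9.symm
        rw [h7 (by omega), ← h10, h5]
    · rw [if_neg h5] at h3
      omega

theorem Inv.skip {I : C → W} {s : Fin S} {k : ℕ} {r : W} {y : ℕ} (h : Inv P e v I s k r y) {y' : ℕ} (hy : y ≤ y')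
    (hy' : y' ≤ N) : Inv P e v I s (k + (y' - y)) r y' := by
  induction y', hy using Nat.le_induction with
  | base =>
    rw [Nat.sub_self, add_zero]
    exact h
  | succ z hz ih =>
    have h1 : k + (z + 1 - y) = k + (z - y) + 1 := by omega
    rw [h1]
    exact (ih (by omega)).skip_one (by omega)

theorem Inv.ask {I : C → W} {s : Fin S} {k : ℕ} {r : W} {y : Fin N} (h : Inv P e v I s k r y)
    (hv : I (e.symm y) ≠ v) : Inv P e v I s k (upd P s (e.symm y) (I (e.symm y)) r) (y + 1) := by
  obtain ⟨h1, h2⟩ := h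
  have h3 := one_succ e v I y.2
  rw [if_neg hv, add_zero] at h3
  refine ⟨by omega, fun h4 x nx hx => ?_⟩
  obtain ⟨h6, h7⟩ := h2 (by omega) x nx hx
  by_cases hxy : x = e.symm y
  · have h8 : (e x : ℕ) = y := by rw [hxy, Equiv.apply_symm_apply]
    refine ⟨fun _ => ?_, fun h9 => by omega⟩
    unfold upd
    rw [if_pos ⟨nx, by rw [hx, hxy]⟩, hxy]
  · have h8 : (e x : ℕ) ≠ y := by
      intro h9
      apply hxy
      rw [Equiv.eq_symm_apply]
      exact Fin.ext h9
    have h9 : upd P s (e.symm y) (I (e.symm y)) r = r := by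
      unfold upd
      rw [if_neg]
      rintro ⟨nx', h10⟩
      rw [hx] at h10
      have h11 := Sum.inl_injective h10
      exact hxy (Prod.mk.inj h11).1
    rw [h9]
    exact ⟨fun h10 => h6 (by omega), fun h10 => h7 (by omega)⟩

/-- At the end. -/
theorem Inv.done {I : C → W} {s : Fin S} {k : ℕ} {r : W} {y : ℕ} (h : Inv P e v I s k r y) (hy : y ≤ N)
    {w : ℕ} (hw : w ≤ one e v I N) (hk : k + (N - y) = w) {x : C} {nx : W → Set (Fin S)}
    (hx : P.act s = .inl (x, nx)) : r = I x := by
  obtain ⟨h1, h2⟩ := h.skip hy le_rfl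
  exact (h2 (by omega) x nx hx).1 (e x).2

open Classical in
theorem Inv.first {c0 : C} {I : C → W} {s : Fin S} (h0 : (e c0 : ℕ) = 0) (hN : 0 < N) :
    Inv P e v I s (if I c0 = v then 1 else 0) (upd P s c0 (I c0) v) 1 := by
  have h1 : e.symm ⟨0, hN⟩ = c0 := by
    rw [Equiv.symm_apply_eq]
    exact Fin.ext h0.symm
  have h2 := one_succ e v I hN
  rw [one_zero, zero_add, zero_add, h1] at h2
  refine ⟨h2.le, fun _ x nx hx => ?_⟩
  by_cases hxc : x = c0
  · refine ⟨fun _ => ?_, fun h3 => ?_⟩
    · unfold upd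
      rw [if_pos ⟨nx, by rw [hx, hxc]⟩, hxc]
    · rw [hxc] at h3
      omega
  · have h8 : (e x : ℕ) ≠ 0 := by
      intro h9
      apply hxc
      apply e.injective
      exact Fin.ext (h9.trans h0.symm)
    refine ⟨fun h9 => by omega, fun _ => ?_⟩
    unfold upd
    rw [if_neg]
    rintro ⟨nx', h10⟩
    rw [hx] at h10
    exact hxc (Prod.mk.inj (Sum.inl_injective h10)).1

end sim

end Pool.Agent.Helper74.RT
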