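import Pool.Agent.Helper74.NW.Model

/-!
# Nondeterministic programs with states in a finite type
-/

set_option autoImplicit false

namespace Pool.Agent.Helper74.RT

open Pool.Agent.Helper74.NW

variable {C W Z Q : Type}

/-- The computations. -/
inductive QRun (act : Q → (C × (W → Set Q)) ⊕ Z) (I : C → W) : Q → List C → Q → Prop
  | nil (s : Q) : QRun act I s [] s
  | cons (s s' t : Q) (c : C) (next : W → Set Q) (l : List C) :
      act s = Sum.inl (c, next) → s' ∈ next (I c) → QRun act I s' l t → QRun act I s (c :: l) t

theorem QRun.append {act : Q → (C × (W → Set Q)) ⊕ Z} {I : C → W} {s t u : Q} {l l' : List C}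
    (h : QRun act I s l t) (h' : QRun act I t l' u) : QRun act I s (l ++ l') u := by
  induction h with
  | nil s => exact h'
  | cons s s' t c next l h1 h2 _ ih => exact QRun.cons _ _ _ _ _ _ h1 h2 (ih h')

variable [Fintype Q]

/-- The program. -/
noncomputable def toProg (start : Q) (act : Q → (C × (W → Set Q)) ⊕ Z) : NProg C W Z (Fintype.card Q) where
  start := Fintype.equivFin Q start
  act := fun s => (act ((Fintype.equivFin Q).symm s)).map
    (fun p => (p.1, fun w => {t | (Fintype.equivFin Q).symm t ∈ p.2 w})) id

theorem toProg_act (start : Q) (act : Q → (C × (W → Set Q)) ⊕ Z) (s : Q) :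
    (toProg start act).act (Fintype.equivFin Q s) = (act s).map
      (fun p => (p.1, fun w => {t | (Fintype.equivFin Q).symm t ∈ p.2 w})) id := by
  show (act ((Fintype.equivFin Q).symm (Fintype.equivFin Q s))).map _ _ = _
  rw [Equiv.symm_apply_apply]

theorem run_of_qrun {start : Q} {act : Q → (C × (W → Set Q)) ⊕ Z} {I : C → W} {s t : Q} {l : List C}
    (h : QRun act I s l t) : (toProg start act).Run I (Fintype.equivFin Q s) l (Fintype.equivFin Q t) := by
  induction h with
  | nil s => exact NProg.Run.nil _
  | cons s s' t c next l h1 h2 _ ih =>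
    refine NProg.Run.cons _ (Fintype.equivFin Q s') _ c
      (fun w => {t | (Fintype.equivFin Q).symm t ∈ next w}) l ?_ ?_ ih
    · rw [toProg_act, h1]
      rfl
    · show (Fintype.equivFin Q).symm (Fintype.equivFin Q s') ∈ next (I c)
      rw [Equiv.symm_apply_apply]
      exact h2

theorem qrun_of_run {start : Q} {act : Q → (C × (W → Set Q)) ⊕ Z} {I : C → W} {u v : Fin (Fintype.card Q)}
    {l : List C} (h : (toProg start act).Run I u l v) :
    QRun act I ((Fintype.equivFin Q).symm u) l ((Fintype.equivFin Q).symm v) := by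
  induction h with
  | nil s => exact QRun.nil _
  | cons s s' t c next l h1 h2 _ ih =>
    have h3 : (act ((Fintype.equivFin Q).symm s)).map
        (fun p => (p.1, fun w => {t | (Fintype.equivFin Q).symm t ∈ p.2 w})) id = Sum.inl (c, next) := h1
    cases h4 : act ((Fintype.equivFin Q).symm s) with
    | inr z =>
      rw [h4] at h3
      simp at h3
    | inl p =>
      rw [h4, Sum.map_inl] at h3
      have h5 := Sum.inl_injective h3
      rw [Prod.mk.injEq] at h5
      obtain ⟨h6, h7⟩ := h5
      rw [← h7] at h2
      refine QRun.cons _ _ _ c p.2 l ?_ h2 ih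
      rw [h4, ← h6]

theorem toProg_ends (start : Q) (act : Q → (C × (W → Set Q)) ⊕ Z) (I : C → W) (l : List C) (z : Z) :
    (toProg start act).Ends I l z ↔ ∃ t, QRun act I start l t ∧ act t = Sum.inr z := by
  constructor
  · rintro ⟨v, h1, h2⟩
    have h3 := qrun_of_run h1
    have h4 : (toProg start act).start = Fintype.equivFin Q start := rfl
    rw [h4, Equiv.symm_apply_apply] at h3
    refine ⟨_, h3, ?_⟩
    have h5 : (act ((Fintype.equivFin Q).symm v)).map
        (fun p => (p.1, fun w => {t | (Fintype.equivFin Q).symm t ∈ p.2 w})) id = Sum.inr z := h2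
    cases h6 : act ((Fintype.equivFin Q).symm v) with
    | inl p =>
      rw [h6] at h5
      simp at h5
    | inr z' =>
      rw [h6, Sum.map_inr] at h5
      have h7 : z' = z := Sum.inr_injective h5
      rw [h7]
  · rintro ⟨t, h1, h2⟩
    refine ⟨Fintype.equivFin Q t, run_of_qrun h1, ?_⟩
    rw [toProg_act, h2]
    rfl

end Pool.Agent.Helper74.RT
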